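import Pool.Agent.Helper6.CS.Goals0

/-!
# ALGB: the order of a model of ACA_0
-/

namespace Pool.Agent.Helper2.CS

open Pool.Agent.Helper6.CS

variable {A : L2Structure}

/-- Induction over an arithmetical predicate, induction variable `0`. -/
theorem indA (hA : IsModelACA0 A) {P : (ℕ → A.M) → Prop} (hP : Arith A P) (e : ℕ → A.M)
    (h0 : P (Function.update e 0 A.zero))
    (hs : ∀ n, P (Function.update e 0 n) → P (Function.update e 0 (A.add n A.one))) :
    ∀ n, P (Function.update e 0 n) :=
  hA.induction _ (hA.comprehension P hP e 0) h0 hs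

/-- The assignment with values `a`, `b` for the variables `1`, `2`. -/
def asg (a b : A.M) : ℕ → A.M := fun n => if n = 1 then a else b

@[simp] theorem asg_one (a b c : A.M) : Function.update (asg a b) 0 c 1 = a := by
  simp [asg, Function.update]

@[simp] theorem asg_two (a b c : A.M) : Function.update (asg a b) 0 c 2 = b := by
  simp [asg, Function.update]

theorem asg_zero (a b c : A.M) : Function.update (asg a b) 0 c 0 = c := by
  simp

theorem lt_trans' (hA : IsModelACA0 A) (a b c : A.M) (h1 : A.lt a b) (h2 : A.lt b c) :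
    A.lt a c := by
  have key := indA hA (P := fun e => ¬ ((A.lt (e 1) (e 2) ∧ A.lt (e 2) (e 0)) ∧ ¬ A.lt (e 1) (e 0)))
    (((Arith.lt (A := A) (.var 1) (.var 2)).and (Arith.lt (.var 2) (.var 0))).and
      (Arith.lt (.var 1) (.var 0)).neg).neg (asg a b)
    (by simp only [asg_one, asg_two, Function.update_self]
        intro h; exact hA.not_lt_zero _ h.1.2)
    (by
      intro n ih
      simp only [asg_one, asg_two, Function.update_self] at ih ⊢
      rintro ⟨⟨h1, h2⟩, h3⟩
      rw [hA.lt_succ] at h2 h3
      apply h3
      rcases h2 with h2 | h2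
      · left
        by_contra h4
        exact ih ⟨⟨h1, h2⟩, h4⟩
      · left
        rw [← h2]; exact h1) c
  simp only [asg_one, asg_two, Function.update_self] at key
  by_contra h4
  exact key ⟨⟨h1, h2⟩, h4⟩

theorem lt_self_succ (hA : IsModelACA0 A) (a : A.M) : A.lt a (A.add a A.one) :=
  (hA.lt_succ _ _).2 (Or.inr rfl)

theorem lt_succ_of_lt (hA : IsModelACA0 A) {a b : A.M} (h : A.lt a b) : A.lt a (A.add b A.one) :=
  (hA.lt_succ _ _).2 (Or.inl h)

theorem succ_lt_succ' (hA : IsModelACA0 A) (a b : A.M) (h : A.lt a b) :
    A.lt (A.add a A.one) (A.add b A.one) := by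
  have key := indA hA
    (P := fun e => ¬ (A.lt (e 1) (e 0) ∧ ¬ A.lt (A.add (e 1) A.one) (A.add (e 0) A.one)))
    ((Arith.lt (A := A) (.var 1) (.var 0)).and
      (Arith.lt (.add (.var 1) .one) (.add (.var 0) .one)).neg).neg (asg a a)
    (by simp only [asg_one, Function.update_self]
        intro h; exact hA.not_lt_zero _ h.1)
    (by
      intro n ih
      simp only [asg_one, Function.update_self] at ih ⊢
      rintro ⟨h1, h2⟩
      rw [hA.lt_succ] at h1 h2
      apply h2
      rcases h1 with h1 | h1
      · left
        by_contra h4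
        exact ih ⟨h1, h4⟩
      · right
        rw [h1]) b
  simp only [asg_one, Function.update_self] at key
  by_contra h4
  exact key ⟨h, h4⟩

theorem lt_of_succ_lt_succ (hA : IsModelACA0 A) (a b : A.M)
    (h : A.lt (A.add a A.one) (A.add b A.one)) : A.lt a b := by
  rw [hA.lt_succ] at h
  rcases h with h | h
  · exact lt_trans' hA _ _ _ (lt_self_succ hA a) h
  · rw [← h]; exact lt_self_succ hA a

theorem lt_irrefl' (hA : IsModelACA0 A) (a : A.M) : ¬ A.lt a a := by
  have key := indA hA (P := fun e => ¬ A.lt (e 0) (e 0))
    (Arith.lt (A := A) (.var 0) (.var 0)).neg (asg a a)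
    (by simp only [Function.update_self]; exact hA.not_lt_zero _)
    (by
      intro n ih
      simp only [Function.update_self] at ih ⊢
      intro h
      exact ih (lt_of_succ_lt_succ hA _ _ h)) a
  simpa only [Function.update_self] using key

theorem zero_or_pos (hA : IsModelACA0 A) (a : A.M) : ¬ (¬ a = A.zero ∧ ¬ A.lt A.zero a) := by
  have key := indA hA (P := fun e => ¬ (¬ e 0 = A.zero ∧ ¬ A.lt A.zero (e 0)))
    ((Arith.eq (A := A) (.var 0) .zero).neg.and (Arith.lt .zero (.var 0)).neg).neg (asg a a)
    (by simp only [Function.update_self]; tauto)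
    (by
      intro n ih
      simp only [Function.update_self] at ih ⊢
      rintro ⟨-, h⟩
      rw [hA.lt_succ] at h
      apply ih
      constructor
      · intro h1; exact h (Or.inr h1.symm)
      · intro h1; exact h (Or.inl h1)) a
  simpa only [Function.update_self] using key

theorem succ_le (hA : IsModelACA0 A) (b a : A.M) (h : A.lt b a) :
    A.lt (A.add b A.one) a ∨ A.add b A.one = a := by
  have key := indA hA
    (P := fun e => ¬ (A.lt (e 1) (e 0) ∧ (¬ A.lt (A.add (e 1) A.one) (e 0) ∧
      ¬ A.add (e 1) A.one = e 0)))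
    ((Arith.lt (A := A) (.var 1) (.var 0)).and
      ((Arith.lt (.add (.var 1) .one) (.var 0)).neg.and
        (Arith.eq (.add (.var 1) .one) (.var 0)).neg)).neg (asg b b)
    (by simp only [asg_one, Function.update_self]
        intro h; exact hA.not_lt_zero _ h.1)
    (by
      intro n ih
      simp only [asg_one, Function.update_self] at ih ⊢
      rintro ⟨h1, h2, h3⟩
      rw [hA.lt_succ] at h1 h2
      rcases h1 with h1 | h1
      · exact ih ⟨h1, fun h => h2 (Or.inl h), fun h => h2 (Or.inr h)⟩
      · exact h3 (by rw [h1])) a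
  simp only [asg_one, Function.update_self] at key
  tauto

theorem trich (hA : IsModelACA0 A) (a b : A.M) : A.lt a b ∨ a = b ∨ A.lt b a := by
  have key := indA hA
    (P := fun e => ¬ (¬ A.lt (e 1) (e 0) ∧ (¬ e 1 = e 0 ∧ ¬ A.lt (e 0) (e 1))))
    ((Arith.lt (A := A) (.var 1) (.var 0)).neg.and
      ((Arith.eq (.var 1) (.var 0)).neg.and (Arith.lt (.var 0) (.var 1)).neg)).neg (asg a a)
    (by simp only [asg_one, Function.update_self]
        rintro ⟨-, h⟩; exact zero_or_pos hA a h)
    (by
      intro n ih
      simp only [asg_one, Function.update_self] at ih ⊢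
      rintro ⟨h1, h2, h3⟩
      rw [hA.lt_succ] at h1
      apply ih
      refine ⟨fun h => h1 (Or.inl h), fun h => h1 (Or.inr h), fun h => ?_⟩
      rcases succ_le hA _ _ h with h4 | h4
      · exact h3 h4
      · exact h2 h4.symm) b
  simp only [asg_one, Function.update_self] at key
  tauto

theorem exists_of_lt (hA : IsModelACA0 A) (a b : A.M) (h : A.lt a b) :
    ∃ c, b = A.add a (A.add c A.one) := by
  have key := indA hA
    (P := fun e => ¬ (A.lt (e 1) (e 0) ∧ ¬ ∃ c, Function.update e 3 c 0 =
      A.add (Function.update e 3 c 1) (A.add (Function.update e 3 c 3) A.one)))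
    ((Arith.lt (A := A) (.var 1) (.var 0)).and
      (Arith.ex 3 (Arith.eq (.var 0) (.add (.var 1) (.add (.var 3) .one)))).neg).neg (asg a a)
    (by simp only [asg_one, Function.update_self]
        intro h; exact hA.not_lt_zero _ h.1)
    (by
      intro n ih
      have e0 : ∀ c m : A.M, Function.update (Function.update (asg a a) 0 m) 3 c 0 = m := by
        intro c m; simp [Function.update]
      have e1 : ∀ c m : A.M, Function.update (Function.update (asg a a) 0 m) 3 c 1 = a := by
        intro c m; simp [Function.update, asg]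
      simp only [asg_one, Function.update_self, e0, e1] at ih ⊢
      rintro ⟨h1, h2⟩
      rw [hA.lt_succ] at h1
      rcases h1 with h1 | h1
      · apply ih
        refine ⟨h1, ?_⟩
        rintro ⟨c, hc⟩
        apply h2
        refine ⟨A.add c A.one, ?_⟩
        rw [hA.add_succ a (A.add c A.one), ← hc]
      · apply h2
        refine ⟨A.zero, ?_⟩
        rw [hA.add_succ, hA.add_zero, h1]) b
  have e0 : ∀ c m : A.M, Function.update (Function.update (asg a a) 0 m) 3 c 0 = m := by
    intro c m; simp [Function.update]
  have e1 : ∀ c m : A.M, Function.update (Function.update (asg a a) 0 m) 3 c 1 = a := by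
    intro c m; simp [Function.update, asg]
  simp only [asg_one, Function.update_self, e0, e1] at key
  by_contra h4
  exact key ⟨h, h4⟩

theorem lt_add_succ (hA : IsModelACA0 A) (a c : A.M) : A.lt a (A.add a (A.add c A.one)) := by
  have key := indA hA
    (P := fun e => A.lt (e 1) (A.add (e 1) (A.add (e 0) A.one)))
    (Arith.lt (A := A) (.var 1) (.add (.var 1) (.add (.var 0) .one))) (asg a a)
    (by simp only [asg_one, Function.update_self]
        rw [hA.add_succ, hA.add_zero]; exact lt_self_succ hA a)
    (by
      intro n ih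
      simp only [asg_one, Function.update_self] at ih ⊢
      rw [hA.add_succ a (A.add n A.one)]
      exact lt_succ_of_lt hA ih) c
  simpa only [asg_one, Function.update_self] using key

theorem t_ALGB : G_ALGB := by
  intro A hA
  refine ⟨lt_irrefl' hA, lt_trans' hA, trich hA, fun a b => ⟨exists_of_lt hA a b, ?_⟩⟩
  rintro ⟨c, rfl⟩
  exact lt_add_succ hA a c

end Pool.Agent.Helper2.CS
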