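import Pool.Agent.Helper65.CS.Goals2

/-!
# MP_34c247_lc, project CS of helper65, packet PTR: the search in polynomial time
-/

set_option autoImplicit false

namespace Pool.Agent.Helper2.CS

open Pool.Agent.Helper81.CC Pool.Agent.Helper78.DT Pool.Agent.Helper51.ZP
open Pool.Agent.Helper65.CS

variable {α β : Type} [ToData α] [ToData β]

theorem sz_filter (p : α → Bool) (l : List α) : sz (l.filter p) ≤ sz l := by
  induction l with
  | nil => simp
  | cons a l ih =>
    rw [List.filter_cons]
    split_ifs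
    · simp only [sz_cons]
      omega
    · simp only [sz_cons]
      omega

theorem sz_map (f : α → β) (hf : ∀ a, sz (f a) ≤ sz a) (l : List α) : sz (l.map f) ≤ sz l := by
  induction l with
  | nil => simp
  | cons a l ih =>
    have := hf a
    simp only [List.map_cons, sz_cons]
    omega

theorem sz_rst (s : List (ℕ × Bool)) (F : DList) : sz (rst s F) ≤ sz F := by
  unfold rst
  refine (sz_map _ (fun e => ?_) _).trans (sz_filter _ _)
  obtain ⟨T, b⟩ := e
  have := sz_filter (fun p => !s.contains p) T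
  simp only [sz_pair]
  omega

theorem sz_lits (n : ℕ) : ∀ e : List (ℕ × Bool), (∀ p ∈ e, p.1 < n) →
    sz e ≤ 1 + e.length * (2 * n + 6)
  | [], _ => by simp
  | p :: e, h => by
    have h1 := sz_lits n e fun q hq => h q (List.mem_cons_of_mem _ hq)
    have h2 := h p List.mem_cons_self
    obtain ⟨v, b⟩ := p
    have h3 := sz_bool b
    simp only at h2
    simp only [sz_cons, sz_pair, sz_nat, List.length_cons]
    have h4 : (e.length + 1) * (2 * n + 6) = e.length * (2 * n + 6) + (2 * n + 6) := by ring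
    omega

theorem length_names (n : ℕ) (e : List (ℕ × Bool)) (h : ∀ p ∈ e, p.1 < n)
    (hn : (e.map Prod.fst).Nodup) : e.length ≤ n := by
  have h1 : (e.map Prod.fst).Subperm (List.range n) := by
    refine List.subperm_of_subset hn fun v hv => ?_
    obtain ⟨p, hp, rfl⟩ := List.mem_map.1 hv
    exact List.mem_range.2 (h p hp)
  have h2 := h1.length_le
  simpa using h2

/-- the size of a state -/
theorem sz_st (hD : CndStmt) (g : ℕ × DList × ℕ → ℕ) (b M n N : ℕ) (F : DList) (k : ℕ) :
    sz (((step g b M n N)^[k] ([], F)).1) ≤ 1 + k * (n * (2 * n + 6)) ∧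
      sz (((step g b M n N)^[k] ([], F)).2) ≤ sz F := by
  induction k with
  | zero => simp
  | succ k ih =>
    rw [Function.iterate_succ_apply']
    set t := (step g b M n N)^[k] ([], F) with ht
    obtain ⟨h1, h2⟩ := ih
    have h5 : (k + 1) * (n * (2 * n + 6)) = k * (n * (2 * n + 6)) + n * (2 * n + 6) := by ring
    unfold step
    split
    · next e he =>
      have hm := List.mem_of_find?_eq_some he
      obtain ⟨-, h6, h7, -⟩ := hD b M n t.1
      obtain ⟨h8, h9, -, -⟩ := h7 e hm
      have h10 : ∀ p ∈ e, p.1 < n := fun p hp => h6 _ (h9 p hp)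
      have h11 := sz_lits n e h10
      have h12 := Nat.mul_le_mul_right (2 * n + 6) (length_names n e h10 h8)
      have h13 := sz_append e t.1
      refine ⟨?_, (sz_rst e t.2).trans h2⟩
      simp only
      omega
    · refine ⟨?_, h2⟩
      omega

theorem two_pow_bb (L : ℕ) (hL : L ≠ 0) : 2 ^ bb L ≤ 4 * L ^ 2 := by
  have h1 := Nat.pow_log_le_self 2 hL
  have h2 : 2 ^ bb L = 4 * (2 ^ Nat.log 2 L) ^ 2 := by
    unfold bb
    rw [← pow_mul, show 2 * (Nat.log 2 L + 1) = 2 + Nat.log 2 L * 2 by ring, pow_add]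
    norm_num
  rw [h2]
  exact Nat.mul_le_mul_left 4 (Nat.pow_le_pow_left h1 2)

theorem pt_dsize : PolyTime (fun z : ℕ × DList => dsize z) := by
  unfold dsize
  fun_prop

/-- Packet CS-PTR: the search in polynomial time. -/
theorem ptr (hX : PtxStmt) (hC : PtcStmt) (hD : CndStmt) (hL : Pool.Agent.Helper78.DT.PtlStmt) :
    Pool.Agent.Helper65.CS.PtrStmt := by
  intro g c hg
  have hN := pt_dsize
  have hlg : PolyTime (fun z : ℕ × DList => lg (dsize z)) :=
    (hL (ℕ × DList) _ _ _ hN hN hN).1
  have hlog : PolyTime (fun z : ℕ × DList => Nat.log 2 (lg (dsize z))) :=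
    (hL (ℕ × DList) _ _ _ hlg hlg hlg).2.1
  have hbb : PolyTime (fun z : ℕ × DList => bb (lg (dsize z))) := by
    unfold bb
    fun_prop
  have hB : PolyTime (fun z : ℕ × DList => 4 * lg (dsize z) ^ 2) := by fun_prop
  have hle : ∀ z : ℕ × DList, 2 ^ bb (lg (dsize z)) ≤ 4 * lg (dsize z) ^ 2 := fun z =>
    two_pow_bb _ (by unfold lg; omega)
  have hpw : PolyTime (fun z : ℕ × DList => 2 ^ bb (lg (dsize z))) :=
    (hL (ℕ × DList) _ _ _ hB hbb hbb).2.2.2.2 hle
  have hTT : PolyTime (fun z : ℕ × DList => TT (lg (dsize z))) := by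
    unfold TT
    fun_prop
  have hMM : PolyTime (fun z : ℕ × DList => MM (dsize z)) := by
    unfold MM
    fun_prop
  have hWw : PolyTime (fun z : ℕ × DList => Ww c (lg (dsize z))) := by
    unfold Ww
    fun_prop
  have hn : PolyTime (fun z : ℕ × DList => z.1) := by fun_prop
  have hF : PolyTime (fun z : ℕ × DList => z.2) := by fun_prop
  have hnil : PolyTime (fun _ : ℕ × DList => ([] : List (ℕ × Bool))) := PolyTime.const _
  have hnrm : PolyTime (fun z : ℕ × DList => nrm z.1 (Ww c (lg (dsize z))) z.2) :=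
    ((hX (ℕ × DList)).2.2.1 _ _ _ _ hn hWw hnil hF).2
  have hs0 : PolyTime (fun z : ℕ × DList =>
      (([], nrm z.1 (Ww c (lg (dsize z))) z.2) : List (ℕ × Bool) × DList)) := hnil.pair hnrm
  have hfst : PolyTime (fun p : (ℕ × DList) × (List (ℕ × Bool) × DList) => p.1) := by fun_prop
  have hstep : PolyTime (fun p : (ℕ × DList) × (List (ℕ × Bool) × DList) =>
      (fun z t => step g (bb (lg (dsize z))) (MM (dsize z)) z.1 (dsize z) t) p.1 p.2) :=
    hC ((ℕ × DList) × (List (ℕ × Bool) × DList)) g _ _ _ _ _ _ hg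
      (PolyTime.comp hB hfst)
      (PolyTime.comp (g := fun z : ℕ × DList => bb (lg (dsize z))) hbb hfst)
      (PolyTime.comp (g := fun z : ℕ × DList => MM (dsize z)) hMM hfst)
      (PolyTime.comp hn hfst) (PolyTime.comp hN hfst) (by fun_prop) fun p => hle p.1
  have hit := PolyTime.iterate_bd (n := fun z : ℕ × DList => TT (lg (dsize z)))
    (s0 := fun z : ℕ × DList =>
      (([], nrm z.1 (Ww c (lg (dsize z))) z.2) : List (ℕ × Bool) × DList))
    (step := fun z t => step g (bb (lg (dsize z))) (MM (dsize z)) z.1 (dsize z) t)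
    hTT hs0 hstep
    (B := fun z : ℕ × DList => 2 + TT (lg (dsize z)) * (z.1 * (2 * z.1 + 6)) +
      sz (nrm z.1 (Ww c (lg (dsize z))) z.2))
    (((PBd.const 2).add ((PBd.nat hTT).mul ((PBd.nat hn).mul
      (((PBd.const 2).mul (PBd.nat hn)).add (PBd.const 6))))).add hnrm.bd) (by
      intro z k hk
      have h1 := sz_st hD g (bb (lg (dsize z))) (MM (dsize z)) z.1 (dsize z)
        (nrm z.1 (Ww c (lg (dsize z))) z.2) k
      have h2 := Nat.mul_le_mul_right (z.1 * (2 * z.1 + 6)) hk
      set t := (step g (bb (lg (dsize z))) (MM (dsize z)) z.1 (dsize z))^[k]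
        ([], nrm z.1 (Ww c (lg (dsize z))) z.2)
      obtain ⟨h3, h4⟩ := h1
      change sz t ≤ _
      have h5 : sz t = sz t.1 + sz t.2 + 1 := sz_pair t.1 t.2
      omega)
  have hasg := ((hX (ℕ × DList)).2.1 _ _ hn hit.fst).2
  exact hasg

end Pool.Agent.Helper2.CS
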